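import Mathlib
import Pool.Agent.Helper203.WLStmt
import Pool.Agent.Helper203.WLFin

set_option autoImplicit false

open scoped InnerProductSpace
open WLim

namespace Pool.Agent.Results.MP_eb6598_an.WaveLimitNotOnto

lemma real_part (K : WaveLimit.L2N →L[ℂ] WaveLimit.L2N)
    (h : ∀ x y : WaveLimit.L2N, ⟪K x, y⟫_ℂ = ⟪x, K y⟫_ℂ) : IsRealPart K K := by
  intro x y
  rw [h]
  ring

lemma matsaev : Matsaev WaveLimit.Kop := by
  obtain ⟨h1, s, e, h2, h3, h4, h5, h6, h7⟩ := WaveLimit.Kop_matsaev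
  refine ⟨h1, s, e, h2, h3, h4, fun j v => ?_, h6, h7⟩
  have h8 := h5 j
  rw [← ContinuousLinearMap.adjoint_inner_left, h8, inner_smul_left]
  simp

/-- Disproof: the wave-limit need not be onto the overlapping space, even if the self-adjoint
part of `φ(0)` is of Matsaev class. -/
theorem result :
    ∃ (𝒞 : Type) (_ : NormedAddCommGroup 𝒞) (_ : InnerProductSpace ℂ 𝒞) (_ : CompleteSpace 𝒞)
      (X : Type) (_ : NormedAddCommGroup X) (_ : InnerProductSpace ℂ X)
      (co : ℕ → X →L[ℂ] 𝒞) (φ : ℕ → 𝒞 →L[ℂ] 𝒞), IsCZ co ∧ Counterexample co φ := by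
  obtain ⟨δ, hpos, h10, hT⟩ := WaveLimit.exists_delta
  have h0 : 0 ≤ δ := hpos.le
  have h1 : δ ≤ 1 := by linarith
  set D := WaveLimit.DD δ h0 h1 with hD
  have hφ0 : D.φc 0 = WaveLimit.Kop := by
    have := WaveLimit.phi0 δ h0 h1
    rw [← this, hD]
    simp [WaveLimit.Coll.φ]
  refine ⟨WaveLimit.L2N, inferInstance, inferInstance, inferInstance,
    WaveLimit.CZ WaveLimit.L2N, inferInstance, inferInstance, co0, D.φc, isCZ, fin_pos D,
    fun z c hz hc => fin_strict D (WaveLimit.J_inj δ h0 h1) z c hz hc,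
    ⟨WaveLimit.Kop, ?_, matsaev⟩, D.Bc, D.M, ContinuousLinearMap.adjoint D.M,
    WaveLimit.defect D.M, fin_cayley D, fin_mul D, fin_adj D, fin_root D, ?_, ?_⟩
  · rw [hφ0]
    exact real_part _ (fun x y => WaveLimit.dg_symm _ _ _ _ _)
  · intro g
    refine fin_series D (WaveLimit.ee 0) ?_ g
    rw [WaveLimit.ee_inner, WaveLimit.ee_self]
  · exact fin_main D (fun h hs => WaveLimit.noSmooth δ h0 h1 hpos h10 h hs)
      (lp.single 2 0 1 : WaveLimit.L2N) (1 / 2) (by norm_num)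
      (fun n => WaveLimit.X_lower δ h0 h1 hT n)

end Pool.Agent.Results.MP_eb6598_an.WaveLimitNotOnto
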